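import Pool.Agent.H37.CSZ.Stmts
import Pool.Agent.H17.CNU.UNN

/-!
# Row ZZN: the higher ramification groups and the conductor of the `Sz(q)` cover
-/

set_option autoImplicit false

namespace Pool.CND

open Finset Matrix

namespace ZZNaux

/-- a strictly upper triangular `4 × 4` matrix has fourth power `0` -/
theorem four_zero {F : Type} [Field F] (N : Matrix (Fin 4) (Fin 4) F) (h00 : N 0 0 = 0)
    (h10 : N 1 0 = 0) (h20 : N 2 0 = 0) (h30 : N 3 0 = 0) (h11 : N 1 1 = 0) (h21 : N 2 1 = 0)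
    (h31 : N 3 1 = 0) (h22 : N 2 2 = 0) (h32 : N 3 2 = 0) (h33 : N 3 3 = 0) : N ^ 4 = 0 := by
  have e : N ^ 4 = (N * N) * (N * N) := by
    simp only [pow_succ, pow_zero, one_mul, Matrix.mul_assoc]
  have e0 : ∀ i j : Fin 4, (N * N) i j = N i 0 * N 0 j + N i 1 * N 1 j + N i 2 * N 2 j +
      N i 3 * N 3 j := by
    intro i j
    rw [Matrix.mul_apply, Fin.sum_univ_four]
  rw [e]
  ext i j
  rw [Matrix.mul_apply, Fin.sum_univ_four]
  simp only [e0, Matrix.zero_apply]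
  fin_cases i <;> fin_cases j <;>
    simp [h00, h10, h20, h30, h11, h21, h31, h22, h32, h33]

/-- the shape of the unipotent elements -/
structure Uni {F : Type} [Field F] [CharP F 2] {φ : F →+* F} (g : Sz φ) : Prop where
  h00 : g.1.1 0 0 = 1
  h10 : g.1.1 1 0 = 0
  h20 : g.1.1 2 0 = 0
  h30 : g.1.1 3 0 = 0
  h11 : g.1.1 1 1 = 1
  h21 : g.1.1 2 1 = 0
  h31 : g.1.1 3 1 = 0
  h22 : g.1.1 2 2 = 1
  h32 : g.1.1 3 2 = 0
  h33 : g.1.1 3 3 = 1
  h01 : g.1.1 0 1 = g.1.1 2 3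
  h13 : g.1.1 1 3 = g.1.1 0 2 + g.1.1 0 1 * φ (g.1.1 0 1)
  one : g.1.1 0 1 = 0 → g.1.1 0 2 = 0 → g = 1

theorem Uni.pow {F : Type} [Field F] [CharP F 2] {φ : F →+* F} {g : Sz φ} (h : Uni g) :
    g ^ (2 ^ 2) = 1 := by
  apply Subtype.ext
  apply Subtype.ext
  have e1 : ((g ^ (2 ^ 2)).1).1 = (g.1.1) ^ (2 ^ 2) := by
    rw [Subgroup.coe_pow]
    exact Matrix.SpecialLinearGroup.coe_pow _ _
  rw [e1]
  set N : Matrix (Fin 4) (Fin 4) F := g.1.1 - 1 with hN
  have e2 : g.1.1 = 1 + N := by rw [hN]; abel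
  have e6 : (1 + N) ^ (2 ^ 2) = 1 ^ (2 ^ 2) + N ^ (2 ^ 2) :=
    add_pow_char_pow_of_commute (p := 2) (n := 2) (Commute.one_left N)
  rw [e2, e6, one_pow]
  have e3 : N ^ 4 = 0 := by
    apply four_zero
    · rw [hN, Matrix.sub_apply, h.h00, Matrix.one_apply_eq, sub_self]
    · rw [hN, Matrix.sub_apply, h.h10, Matrix.one_apply_ne (by decide), sub_self]
    · rw [hN, Matrix.sub_apply, h.h20, Matrix.one_apply_ne (by decide), sub_self]
    · rw [hN, Matrix.sub_apply, h.h30, Matrix.one_apply_ne (by decide), sub_self]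
    · rw [hN, Matrix.sub_apply, h.h11, Matrix.one_apply_eq, sub_self]
    · rw [hN, Matrix.sub_apply, h.h21, Matrix.one_apply_ne (by decide), sub_self]
    · rw [hN, Matrix.sub_apply, h.h31, Matrix.one_apply_ne (by decide), sub_self]
    · rw [hN, Matrix.sub_apply, h.h22, Matrix.one_apply_eq, sub_self]
    · rw [hN, Matrix.sub_apply, h.h32, Matrix.one_apply_ne (by decide), sub_self]
    · rw [hN, Matrix.sub_apply, h.h33, Matrix.one_apply_eq, sub_self]
  have e5 : N ^ (2 ^ 2) = 0 := e3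
  rw [e5, add_zero]
  rfl

section

variable {k F L : Type} [Field k] [Field F] [CharP F 2] [Field L] [Algebra F k] [Algebra k L]
  {q f e : ℕ} {φ : F →+* F} {t : L} {X : Fin 4 → L} {ρ : Sz φ →* (L ≃ₐ[k] L)} {P : Place k L}

open UNNaux

theorem act_3 (H : SzD k F L q f e φ t X ρ P) {g : Sz φ} (h : Uni g) :
    ρ g (X 3) = cst k F L (g.1.1 0 3) * X 0 + cst k F L (g.1.1 1 3) * X 1 +
      cst k F L (g.1.1 2 3) * X 2 + X 3 := by
  rw [H.act_X g 3, Fin.sum_univ_four, h.h33, cst_one]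
  ring

theorem act_0 (H : SzD k F L q f e φ t X ρ P) {g : Sz φ} (h10 : g.1.1 1 0 = 0)
    (h20 : g.1.1 2 0 = 0) (h30 : g.1.1 3 0 = 0) :
    ρ g (X 0) = cst k F L (g.1.1 0 0) * X 0 := by
  rw [H.act_X g 0, Fin.sum_univ_four, h10, h20, h30, cst_zero]
  ring

theorem act_1 (H : SzD k F L q f e φ t X ρ P) {g : Sz φ} (h : Uni g) :
    ρ g (X 1) = cst k F L (g.1.1 0 1) * X 0 + X 1 := by
  rw [H.act_X g 1, Fin.sum_univ_four, h.h11, h.h21, h.h31, cst_zero, cst_one]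
  ring

theorem act_2 (H : SzD k F L q f e φ t X ρ P) {g : Sz φ} (h : Uni g) :
    ρ g (X 2) = cst k F L (g.1.1 0 2) * X 0 + cst k F L (g.1.1 1 2) * X 1 + X 2 := by
  rw [H.act_X g 2, Fin.sum_univ_four, h.h22, h.h32, cst_zero, cst_one]
  ring

omit [CharP F 2] in
theorem ge_cst_mul {a : F} {z : L} {n : ℤ} (hz : z ≠ 0) (hn : n ≤ P.ord z) :
    P.Ge (cst k F L a * z) n := by
  by_cases ha : a = 0
  · rw [ha, cst_zero, zero_mul]
    exact P.ge_zero _
  · right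
    rw [ord_cst_mul ha hz]
    exact hn

/-- the value of `b` -/
theorem b_eq (hLO2 : S_LO2) (hINJ : S_INJ) (H : SzD k F L q f e φ t X ρ P)
    (hch : CharP k 2) (he : 1 ≤ e) (hf : 1 ≤ f) (heq : (e : ℤ) * (f + 1) ≤ q ^ 2) {g : Sz φ}
    (hF : Fixes P (ρ g)) (h : Uni g) (h1 : g ≠ 1) (hb : 1 ≤ P.b (ρ g)) (hρ : ρ g ≠ 1) :
    (g.1.1 2 3 ≠ 0 → P.b (ρ g) = (e : ℤ)) ∧
      (g.1.1 2 3 = 0 → P.b (ρ g) = (e : ℤ) * (f + 1)) := by
  obtain ⟨-, x0, x1, x2, x3⟩ := H.ne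
  have hez : (1 : ℤ) ≤ e := by exact_mod_cast he
  have hfz : (1 : ℤ) ≤ f := by exact_mod_cast hf
  have hpi : ρ g P.pi ≠ P.pi := fun hcon => hρ (hINJ k L P (ρ g) P.pi hF P.pi_ne P.ord_pi hcon)
  have hb' : P.ord (ρ g P.pi - P.pi) = P.b (ρ g) + 1 := by
    rw [Place.b]
    ring
  have hy : ¬ ((2 : ℕ) : ℤ) ∣ P.ord (X 3) := by
    rw [H.ord_3]
    omega
  obtain ⟨-, h7⟩ := (hLO2 2 k L P (ρ g) P.pi (P.b (ρ g)) Nat.prime_two hch hF P.pi_ne P.ord_pi hb
    hpi hb' (X 3) x3).1 hy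
  have e1 : ρ g (X 3) - X 3 = cst k F L (g.1.1 2 3) * X 2 +
      (cst k F L (g.1.1 1 3) * X 1 + cst k F L (g.1.1 0 3) * X 0) := by
    rw [act_3 H h]
    ring
  have o0 : P.ord (X 0) = (q : ℤ) ^ 2 := by
    rw [H.ord_0]
    push_cast
    ring
  rw [e1, H.ord_3] at h7
  constructor
  · intro h23
    have h2 : P.Ge (cst k F L (g.1.1 1 3) * X 1 + cst k F L (g.1.1 0 3) * X 0)
        (P.ord (cst k F L (g.1.1 2 3) * X 2) + 1) := by
      rw [ord_cst_mul h23 x2, H.ord_2]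
      refine P.ge_add (ge_cst_mul x1 ?_) (ge_cst_mul x0 ?_)
      · rw [H.ord_1]
        nlinarith
      · rw [o0]
        nlinarith
    rw [(P.ord_add_of_lt (mul_ne_zero (cst_ne h23).2 x2) h2).2, ord_cst_mul h23 x2, H.ord_2] at h7
    linarith
  · intro h23
    have h01 : g.1.1 0 1 = 0 := by rw [h.h01]; exact h23
    have h13 : g.1.1 1 3 ≠ 0 := by
      rw [h.h13, h01, zero_mul, add_zero]
      intro hc
      exact h1 (h.one h01 hc)
    have h2 : P.Ge (cst k F L (g.1.1 0 3) * X 0)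
        (P.ord (cst k F L (g.1.1 1 3) * X 1) + 1) := by
      rw [ord_cst_mul h13 x1, H.ord_1]
      refine ge_cst_mul x0 ?_
      rw [o0]
      linarith
    rw [h23, cst_zero, zero_mul, zero_add,
      (P.ord_add_of_lt (mul_ne_zero (cst_ne h13).2 x1) h2).2, ord_cst_mul h13 x1, H.ord_1] at h7
    linarith

end

end ZZNaux

open UNNaux ZZNaux in
theorem zzn_thm (hZZF : S_ZZF) (hZZB : S_ZZB) (hRAM : S_RAM) (hLON : S_LON) (hINJ : S_INJ)
    (hTMO : S_TMO) (hLO2 : S_LO2) : S_ZZN := by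
  intro n q f e k F L _ _ _ _ _ _ _ φ t X ρ P hch hn hf hq hef hF hφ H
  have hfix : ∀ g : Sz φ, Fixes P (ρ g) ↔ g.1.1 1 0 = 0 ∧ g.1.1 2 0 = 0 ∧ g.1.1 3 0 = 0 :=
    hZZF n q f e k F L φ t X ρ P hch hn hf hq hef hF hφ H
  obtain ⟨hshape, hc0, hc1, hc2⟩ := hZZB n q f F φ hn hf hq hF hφ
  obtain ⟨-, x0, x1, x2, x3⟩ := H.ne
  -- numbers
  have h2n : 2 ≤ 2 ^ n := by
    calc 2 = 2 ^ 1 := rfl
      _ ≤ 2 ^ n := Nat.pow_le_pow_right (by norm_num) hn
  have hf' : f = 2 * 2 ^ n := by rw [hf, pow_succ, mul_comm]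
  have hqf : q = 2 ^ n * f := by rw [hq, hf, ← pow_add]; congr 1; omega
  have hff : f * f = 2 * q := by rw [hqf]; nth_rewrite 1 [hf']; ring
  have hf4 : 4 ≤ f := by omega
  have hqf2 : 2 * f ≤ q := by rw [hqf]; exact Nat.mul_le_mul_right f h2n
  have he1 : 1 ≤ e := by omega
  have heq1 : e ≤ q := by omega
  have hez : (e : ℤ) = q - f + 1 := by
    have : ((e + f : ℕ) : ℤ) = ((q + 1 : ℕ) : ℤ) := by rw [hef]
    push_cast at this
    linarith
  have hffz : (f : ℤ) * f = 2 * q := by exact_mod_cast hff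
  have hef1 : (e : ℤ) * (f + 1) = q * f - q + 1 := by
    rw [hez]
    linear_combination -hffz
  have hfz : (4 : ℤ) ≤ f := by exact_mod_cast hf4
  have hqz : 2 * (f : ℤ) ≤ q := by exact_mod_cast hqf2
  have heq : (e : ℤ) * (f + 1) ≤ q ^ 2 := by
    rw [hef1]
    nlinarith
  -- the shape of the elements with first column `(1, 0, 0, 0)`
  have huni : ∀ g : Sz φ, g.1.1 1 0 = 0 → g.1.1 2 0 = 0 → g.1.1 3 0 = 0 → g.1.1 0 0 = 1 →
      Uni g := by
    intro g h10 h20 h30 h00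
    obtain ⟨s1, s2, s3, s4, s5, s6⟩ := hshape g h10 h20 h30
    obtain ⟨s7, s8, s9, s10, s11, s12⟩ := s6 h00
    rw [h00, one_mul] at s5
    exact ⟨h00, h10, h20, h30, s7, s1, s2, s8, s3, s5, s9, s11, s12⟩
  -- the action is faithful on the Borel group
  have hinj : ∀ g : Sz φ, g.1.1 1 0 = 0 → g.1.1 2 0 = 0 → g.1.1 3 0 = 0 → ρ g = 1 → g = 1 := by
    intro g h10 h20 h30 h
    have a0 := ZZNaux.act_0 H h10 h20 h30
    rw [h, AlgEquiv.one_apply] at a0
    have h00 : g.1.1 0 0 = 1 := by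
      apply cst_inj (k := k) (L := L)
      rw [cst_one]
      have h2 : (cst k F L (g.1.1 0 0) - 1) * X 0 = 0 := by linear_combination -a0
      rcases mul_eq_zero.1 h2 with h3 | h3
      · linear_combination h3
      · exact absurd h3 x0
    have hU := huni g h10 h20 h30 h00
    have a1 := ZZNaux.act_1 H hU
    have a2 := ZZNaux.act_2 H hU
    rw [h, AlgEquiv.one_apply] at a1 a2
    have h01 : g.1.1 0 1 = 0 := by
      apply cst_inj (k := k) (L := L)
      rw [cst_zero]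
      have h2 : cst k F L (g.1.1 0 1) * X 0 = 0 := by linear_combination -a1
      exact (mul_eq_zero.1 h2).resolve_right x0
    have h12 : g.1.1 1 2 = 0 := by
      have h3 := (hshape g h10 h20 h30).2.2.2.2.2 h00
      rw [h3.2.2.2.1, h01, map_zero]
    have h02 : g.1.1 0 2 = 0 := by
      apply cst_inj (k := k) (L := L)
      rw [cst_zero]
      rw [h12, cst_zero, zero_mul, add_zero] at a2
      have h2 : cst k F L (g.1.1 0 2) * X 0 = 0 := by linear_combination -a2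
      exact (mul_eq_zero.1 h2).resolve_right x0
    exact hU.one h01 h02
  -- the value of `b`
  have hbval : ∀ g : Sz φ, g.1.1 1 0 = 0 → g.1.1 2 0 = 0 → g.1.1 3 0 = 0 → g.1.1 0 0 = 1 →
      g ≠ 1 → ρ g ≠ 1 ∧ (g.1.1 0 1 ≠ 0 → P.b (ρ g) = (e : ℤ)) ∧
      (g.1.1 0 1 = 0 → P.b (ρ g) = (e : ℤ) * (f + 1)) := by
    intro g h10 h20 h30 h00 h1
    have hU := huni g h10 h20 h30 h00
    have hFx := (hfix g).2 ⟨h10, h20, h30⟩
    have hρ : ρ g ≠ 1 := fun h => h1 (hinj g h10 h20 h30 h)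
    have hr1 : g ∈ ram P ρ 1 := tmo_pow hTMO P ρ Nat.prime_two hch 2 g hFx hU.pow
    have h3 := ((hRAM k L (Sz φ) P ρ g 1 le_rfl).1 hr1).2.resolve_left hρ
    have hb : 1 ≤ P.b (ρ g) := by exact_mod_cast h3
    have h4 := ZZNaux.b_eq hLO2 hINJ H hch he1 (by omega) heq hFx hU h1 hb hρ
    rw [hU.h01]
    exact ⟨hρ, h4⟩
  -- elements of `ram i`, `i ≥ 1`
  have h00of : ∀ (g : Sz φ) (i : ℕ), 1 ≤ i → g ∈ ram P ρ i →
      g.1.1 1 0 = 0 ∧ g.1.1 2 0 = 0 ∧ g.1.1 3 0 = 0 ∧ g.1.1 0 0 = 1 := by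
    intro g i hi hg
    obtain ⟨h1, h2⟩ := (hRAM k L (Sz φ) P ρ g i hi).1 hg
    obtain ⟨h10, h20, h30⟩ := (hfix g).1 h1
    refine ⟨h10, h20, h30, ?_⟩
    by_cases hρ : ρ g = 1
    · rw [hinj g h10 h20 h30 hρ]
      rfl
    have h3 : (i : ℤ) ≤ P.b (ρ g) := h2.resolve_left hρ
    have hi1 : (1 : ℤ) ≤ i := by exact_mod_cast hi
    by_contra hne
    have h4 : P.Ge (ρ g P.pi - P.pi) (1 + 1) := by
      right
      have : P.ord (ρ g P.pi - P.pi) = P.b (ρ g) + 1 := by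
        rw [Place.b]
        ring
      rw [this]
      linarith
    have h5 := (hLON k L P (ρ g) P.pi 1 h1 P.pi_ne P.ord_pi (by norm_num) h4 (X 0)).resolve_right x0
    have e1 : ρ g (X 0) - X 0 = cst k F L (g.1.1 0 0 - 1) * X 0 := by
      rw [ZZNaux.act_0 H h10 h20 h30]
      simp only [cst, map_sub, map_one]
      ring
    have h6 : g.1.1 0 0 - 1 ≠ 0 := sub_ne_zero.2 hne
    rw [e1] at h5
    have h8 := h5.resolve_left (mul_ne_zero (cst_ne h6).2 x0)
    rw [ord_cst_mul h6 x0] at h8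
    linarith
  have hel : e ≤ e * (f + 1) := Nat.le_mul_of_pos_right e (by omega)
  have heln : ((e * (f + 1) : ℕ) : ℤ) = (e : ℤ) * (f + 1) := by push_cast; ring
  -- the ramification groups
  have r0 : ram P ρ 0 = {g : Sz φ | g.1.1 1 0 = 0 ∧ g.1.1 2 0 = 0 ∧ g.1.1 3 0 = 0} := by
    ext g
    rw [ram0_iff, hfix]
    rfl
  have r1 : ∀ i, 1 ≤ i → i ≤ e →
      ram P ρ i = {g : Sz φ | g.1.1 1 0 = 0 ∧ g.1.1 2 0 = 0 ∧ g.1.1 3 0 = 0 ∧
        g.1.1 0 0 = 1} := by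
    intro i hi hie
    ext g
    constructor
    · exact h00of g i hi
    · rintro ⟨h10, h20, h30, h00⟩
      by_cases hg : g = 1
      · rw [hg]
        exact one_mem_ram P ρ i
      obtain ⟨hρ, b1, b2⟩ := hbval g h10 h20 h30 h00 hg
      refine (hRAM k L (Sz φ) P ρ g i hi).2 ⟨(hfix g).2 ⟨h10, h20, h30⟩, Or.inr ?_⟩
      by_cases h01 : g.1.1 0 1 = 0
      · rw [b2 h01, ← heln]
        exact_mod_cast hie.trans hel
      · rw [b1 h01]
        exact_mod_cast hie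
  have r2 : ∀ i, e < i → i ≤ e * (f + 1) → ram P ρ i =
      {g : Sz φ | g.1.1 1 0 = 0 ∧ g.1.1 2 0 = 0 ∧ g.1.1 3 0 = 0 ∧ g.1.1 0 0 = 1 ∧
        g.1.1 0 1 = 0} := by
    intro i hi hil
    have hi1 : 1 ≤ i := by omega
    ext g
    constructor
    · intro hg
      obtain ⟨h10, h20, h30, h00⟩ := h00of g i hi1 hg
      refine ⟨h10, h20, h30, h00, ?_⟩
      by_contra h01
      have hg1 : g ≠ 1 := by
        rintro rfl
        exact h01 rfl
      obtain ⟨hρ, b1, -⟩ := hbval g h10 h20 h30 h00 hg1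
      have h3 := ((hRAM k L (Sz φ) P ρ g i hi1).1 hg).2.resolve_left hρ
      rw [b1 h01] at h3
      have : i ≤ e := by exact_mod_cast h3
      omega
    · rintro ⟨h10, h20, h30, h00, h01⟩
      by_cases hg : g = 1
      · rw [hg]
        exact one_mem_ram P ρ i
      obtain ⟨hρ, -, b2⟩ := hbval g h10 h20 h30 h00 hg
      refine (hRAM k L (Sz φ) P ρ g i hi1).2 ⟨(hfix g).2 ⟨h10, h20, h30⟩, Or.inr ?_⟩
      rw [b2 h01, ← heln]
      exact_mod_cast hil
  have r3 : ram P ρ (e * (f + 1) + 1) = {1} := by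
    ext g
    rw [Set.mem_singleton_iff]
    constructor
    · intro hg
      obtain ⟨h10, h20, h30, h00⟩ := h00of g _ (by omega) hg
      by_contra hg1
      obtain ⟨hρ, b1, b2⟩ := hbval g h10 h20 h30 h00 hg1
      have h3 := ((hRAM k L (Sz φ) P ρ g _ (by omega)).1 hg).2.resolve_left hρ
      by_cases h01 : g.1.1 0 1 = 0
      · rw [b2 h01, ← heln] at h3
        have : e * (f + 1) + 1 ≤ e * (f + 1) := by exact_mod_cast h3
        omega
      · rw [b1 h01] at h3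
        have : e * (f + 1) + 1 ≤ e := by exact_mod_cast h3
        omega
    · rintro rfl
      exact one_mem_ram P ρ _
  have n0 : (ram P ρ 0).ncard = q ^ 2 * (q - 1) := by
    rw [r0, ← hc0]
    rfl
  have n1 : ∀ i, 1 ≤ i → i ≤ e → (ram P ρ i).ncard = q ^ 2 := by
    intro i h1 h2
    rw [r1 i h1 h2, ← hc1]
    rfl
  have n2 : ∀ i, e < i → i ≤ e * (f + 1) → (ram P ρ i).ncard = q := by
    intro i h1 h2
    rw [r2 i h1 h2]
    conv_rhs => rw [← hc2]
    rfl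
  have hlt : e < e * (f + 1) := by nlinarith
  refine ⟨e * (f + 1), ?_, r3, ?_⟩
  · intro h
    have h3 := congrArg Set.ncard h
    rw [Set.ncard_singleton, n2 _ hlt le_rfl] at h3
    omega
  · have hsum : ∑ i ∈ Icc 1 (e * (f + 1)), ((ram P ρ i).ncard : ℚ) =
        e * (q : ℚ) ^ 2 + (e * f : ℚ) * q := by
      have h5 : ∀ i ∈ Icc 1 (e * (f + 1)), ((ram P ρ i).ncard : ℚ) =
          if i ≤ e then (q : ℚ) ^ 2 else (q : ℚ) := by
        intro i hi
        obtain ⟨hi1, hi2⟩ := Finset.mem_Icc.1 hi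
        split_ifs with h6
        · rw [n1 i hi1 h6]
          push_cast
          rfl
        · rw [n2 i (by omega) hi2]
      rw [Finset.sum_congr rfl h5, Finset.sum_ite, Finset.sum_const, Finset.sum_const]
      have f1 : (Icc 1 (e * (f + 1))).filter (fun i => i ≤ e) = Icc 1 e := by
        ext i
        simp only [Finset.mem_filter, Finset.mem_Icc]
        constructor
        · rintro ⟨⟨h1, -⟩, h2⟩
          exact ⟨h1, h2⟩
        · rintro ⟨h1, h2⟩
          exact ⟨⟨h1, h2.trans hel⟩, h2⟩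
      have f2 : (Icc 1 (e * (f + 1))).filter (fun i => ¬ i ≤ e) = Icc (e + 1) (e * (f + 1)) := by
        ext i
        simp only [Finset.mem_filter, Finset.mem_Icc]
        constructor
        · rintro ⟨⟨-, h1⟩, h2⟩
          exact ⟨by omega, h1⟩
        · rintro ⟨h1, h2⟩
          exact ⟨⟨by omega, h2⟩, by omega⟩
      rw [f1, f2, Nat.card_Icc, Nat.card_Icc, nsmul_eq_mul, nsmul_eq_mul, Nat.add_sub_cancel]
      have f3 : e * (f + 1) + 1 - (e + 1) = e * f := by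
        rw [Nat.mul_succ]
        omega
      rw [f3]
      push_cast
      ring
    rw [hsum, n0]
    have q0 : (q : ℚ) ≠ 0 := by
      rw [Nat.cast_ne_zero]
      omega
    have q1 : (q : ℚ) - 1 ≠ 0 := by
      have : (2 : ℚ) ≤ q := by exact_mod_cast (by omega : 2 ≤ q)
      linarith
    have m0 : ((2 : ℚ) ^ n) ≠ 0 := by positivity
    have f0 : (f : ℚ) ≠ 0 := by
      rw [Nat.cast_ne_zero]
      omega
    have q2 : (q : ℚ) = 2 ^ n * f := by
      rw [hqf]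
      push_cast
      ring
    have q3 : (f : ℚ) = 2 * 2 ^ n := by
      rw [hf']
      push_cast
      ring
    rw [Nat.cast_mul (q ^ 2), Nat.cast_mul (2 ^ n), Nat.cast_sub (by omega : 1 ≤ q)]
    push_cast
    rw [div_eq_div_iff (mul_ne_zero m0 q1) (mul_ne_zero (pow_ne_zero 2 q0) q1)]
    have key : (q : ℚ) * (2 ^ n + 1) = 2 ^ n * (q + f) := by
      rw [q2]
      ring
    linear_combination (e * q * (q - 1) : ℚ) * key

end Pool.CND
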